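import Mathlib

/-!
# The products of abelian varieties with all curves: the pieces (project BC)
-/

set_option autoImplicit false

open CategoryTheory CategoryTheory.Limits AlgebraicGeometry Polynomial

namespace Pool.Agent.J4H9.BC

/-- The points of `B` with values in the extension `K` of `k` (as `BS.Points`). -/
abbrev Pts {k : Type} [Field k] (B : Over (Spec (CommRingCat.of k))) (K : Type) [Field K]
    [Algebra k K] : Type :=
  {x : Spec (CommRingCat.of K) ⟶ B.left //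
    x ≫ B.hom = Spec.map (CommRingCat.ofHom (algebraMap k K))}

/-- (PTS) The points of a product. -/
def S_PTS : Prop :=
  ∀ (k : Type) [Field k] (B C X : Over (Spec (CommRingCat.of k))) (p₁ : X ⟶ B) (p₂ : X ⟶ C),
    Nonempty (IsLimit (BinaryFan.mk p₁ p₂)) → ∀ (K : Type) [Field K] [Algebra k K],
      Nat.card (Pts X K) = Nat.card (Pts B K) * Nat.card (Pts C K)

/-- The rational function `∏ (1 - y q^{-s}) ^ (-c)` of `q^{-s}`, for the pairs `(c, y)` in `P`. -/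
noncomputable def traceZeta (q : ℕ) (P : Multiset (ℤ × ℂ)) (s : ℂ) : ℂ :=
  (P.map fun t => (1 - t.2 * (q : ℂ) ^ (-s)) ^ (-t.1)).prod

open Classical in
/-- (ORD) The orders of `traceZeta`; see `Pool.Agent.J4H9.BS.order_weilZeta`. -/
def S_ORD : Prop :=
  ∀ (q : ℕ), 1 < q → ∀ P : Multiset (ℤ × ℂ), MeromorphicOn (traceZeta q P) Set.univ ∧
    ∀ m : ℤ, (∀ t ∈ P, t.2 = (q : ℂ) ^ m → t.1 = 1) →
      meromorphicOrderAt (traceZeta q P) (m : ℂ) =
        ((-(Multiset.card (P.filter fun t => t.2 = (q : ℂ) ^ m) : ℤ) : ℤ) : WithTop ℤ)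

/-- `S` is a union of pairs `x, y` such that `x y / Q` is a root of unity (as
`BS.IsUnionOfPairs`). -/
def UnionOfPairs (Q : ℕ) (S : Multiset ℂ) : Prop :=
  ∃ T : Multiset (ℂ × ℂ), S = T.map Prod.fst + T.map Prod.snd ∧
    ∀ t ∈ T, ∃ n : ℕ, 0 < n ∧ (t.1 * t.2) ^ n = (Q : ℂ) ^ n

/-- (NEC) `odd` is `BF.OddRelF q f` for a fixed `s` and `ρ`, `Z` the set of the roots of the `f i`:
the conclusion follows by induction on the number of elements of `T` (remove two elements with the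
product `q`; if there are none, `T` has one element by the absolute values and `odd`). -/
def S_NEC : Prop :=
  ∀ (q s : ℕ), 1 < q → 0 < s → ∀ (Z : Set ℂ), (∀ z ∈ Z, ‖z‖ ^ 2 = (q : ℝ)) →
    ∀ ρ : ℂ, ‖ρ‖ ^ 2 = (q : ℝ) ^ s →
    (∀ m N : ℕ, 0 < N → ∀ z : Fin (2 * m + 3) → ℂ, (∀ k, z k ∈ Z) →
      ((∏ k, z k) ^ s * ρ) ^ N = (((q : ℂ) ^ s) ^ (m + 2)) ^ N →
      (∀ k l, k ≠ l → z k * z l ≠ q) → False) →
    ∀ T : Multiset ℂ, (∀ z ∈ T, z ∈ Z) → ∀ m n : ℕ, 0 < n →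
      (ρ * T.prod ^ s) ^ n = ((((q ^ s : ℕ)) : ℂ) ^ m) ^ n →
      UnionOfPairs (q ^ s) (ρ ::ₘ T.map fun z => z ^ s)

end Pool.Agent.J4H9.BC
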