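import Mathlib
import Pool.Agent.J4H9.BSDefs
import Pool.Agent.J4H9.BC.Stm

/-!
# The products of abelian varieties with curves over finite fields
-/

set_option autoImplicit false

open CategoryTheory CategoryTheory.Limits AlgebraicGeometry Polynomial Pool.Agent.Y116.UV
  Pool.Agent.J4H9.BS

universe w

namespace Pool.Agent.J4H9.BC

/-- `C` is a smooth projective geometrically irreducible curve over `k`. -/
structure IsCurve {k : Type} [Field k] (C : Over (Spec (CommRingCat.of k))) : Prop where
  proper : IsProper C.hom
  smooth : SmoothOfRelativeDimension 1 C.hom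
  integral : GeometricallyIntegral C.hom

/-- `w` is the characteristic polynomial of Frobenius on `H ^ 1 (C)` for the curve `C` over the finite
field `k`: it is monic with integral coefficients, its complex roots have the absolute value `√q`, `q`
the number of elements of `k`, and `C` has `1 + q ^ n - ∑ z ^ n` points with values in the extensions
of degree `n`, where `z` runs through the roots of `w`. -/
structure IsCurvePolynomial {k : Type} [Field k] (C : Over (Spec (CommRingCat.of k))) (w : ℤ[X]) :
    Prop where
  monic : w.Monic
  norm : ∀ z : ℂ, aeval z w = 0 → ‖z‖ ^ 2 = Nat.card k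
  points : ∀ (K : Type) [Field K] [Finite K] [Algebra k K], (Nat.card (Points C K) : ℂ) =
    1 + (Nat.card k : ℂ) ^ Module.finrank k K -
      ((w.aroots ℂ).map fun z => z ^ Module.finrank k K).sum

/-- The products of the elements of the subsets `S` of the family of the complex roots of `h`, with the
signs `(-1) ^ |S|`: the eigenvalues of Frobenius on the cohomology of an abelian variety. -/
noncomputable def abelianTrace (h : ℤ[X]) : Multiset (ℤ × ℂ) :=
  (h.aroots ℂ).powerset.map fun S => ((-1) ^ Multiset.card S, S.prod)

/-- The eigenvalues `1`, `q` and the roots of `w` of Frobenius on the cohomology of a curve, with their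
signs. -/
noncomputable def curveTrace (q : ℕ) (w : ℤ[X]) : Multiset (ℤ × ℂ) :=
  (1, 1) ::ₘ (1, (q : ℂ)) ::ₘ (w.aroots ℂ).map fun z => (-1, z)

/-- The eigenvalues of Frobenius on the cohomology of the product, with their signs. -/
noncomputable def productTrace (q : ℕ) (h w : ℤ[X]) : Multiset (ℤ × ℂ) :=
  (abelianTrace h).bind fun t => (curveTrace q w).map fun u => (t.1 * u.1, t.2 * u.2)

open Classical in
/-- The number of the eigenvalues `q ^ m`: the number of the Tate classes. -/
noncomputable def tateNumberProduct (q : ℕ) (h w : ℤ[X]) (m : ℤ) : ℕ :=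
  Multiset.card ((productTrace q h w).filter fun t => t.2 = (q : ℂ) ^ m)

/-- All Tate classes in `H ^ i (B) ⊗ H ^ 1 (C)`, over all finite extensions, are combinations of
products of Tate classes of degree two, for an abelian variety `B` and a curve `C` with the
characteristic polynomials `h`, `w` of Frobenius: each set consisting of a root `z` of `w` and a set `S`
of roots of `h` such that the product of its elements is `Q ^ m`, up to a root of unity, is a union of
such pairs. -/
def NoExoticCurve (Q : ℕ) (h w : ℤ[X]) : Prop :=
  ∀ S ≤ h.aroots ℂ, ∀ z : ℂ, aeval z w = 0 → ∀ m n : ℕ, 0 < n →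
    (z * S.prod) ^ n = ((Q : ℂ) ^ m) ^ n → IsUnionOfPairs Q (z ::ₘ S)

/-- **The theorem of Kahn** (2003; with the theorems of Tate 1966 and Soulé 1984) for `A` and the
products `X = B × C` of an abelian variety `B` and a curve `C` over the finite field `k` such that all
Tate classes on `X` are combinations of products of Tate classes of degree two (so they are algebraic,
by Tate). Then `CH_m(X, j) ⊗ ℚ` is zero for `j ≠ 0`, and the dimension of `CH_m(X) ⊗ ℚ` is the number
of the Tate classes. -/
def KahnTheoremCurves (A : ℤ → ℤ → Sch ℤ → ModuleCat.{w} ℚ) : Prop :=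
  ∀ (k : Type) [Field k] [Finite k] (B C X : Over (Spec (CommRingCat.of k))) (p₁ : X ⟶ B)
    (p₂ : X ⟶ C) (h w : ℤ[X]), Nonempty (IsLimit (BinaryFan.mk p₁ p₂)) →
    IsAbelianVariety B → IsWeilPolynomial B h → IsCurve C → IsCurvePolynomial C w →
    NoExotic (Nat.card k) h → NoExoticCurve (Nat.card k) h w → ∀ m : ℤ,
      (∀ j : ℤ, j ≠ 0 → Subsingleton (A m j (toZ X))) ∧ Module.Finite ℚ (A m 0 (toZ X)) ∧
        Module.finrank ℚ (A m 0 (toZ X)) = tateNumberProduct (Nat.card k) h w m

/-- `X` is the product of an abelian variety `B` over an extension `k` of degree `s` of the field with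
`q` elements, whose characteristic polynomial of Frobenius has only `s`-th powers of roots of the `f i`
as roots (so `B` is isogenous to a product of factors of the abelian varieties with the characteristic
polynomials `f i`, with arbitrary multiplicities), and any smooth projective curve `C` over `k`. -/
def IsCurveMember {I : Type} (q : ℕ) (f : I → ℤ[X]) (X : Sch ℤ) : Prop :=
  ∃ (s : ℕ) (k : Type) (_ : Field k) (_ : Finite k) (B C Y : Over (Spec (CommRingCat.of k)))
    (p₁ : Y ⟶ B) (p₂ : Y ⟶ C) (h w : ℤ[X]), 0 < s ∧ Nat.card k = q ^ s ∧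
      Nonempty (IsLimit (BinaryFan.mk p₁ p₂)) ∧ IsAbelianVariety B ∧ IsWeilPolynomial B h ∧
      (∀ z : ℂ, aeval z h = 0 → ∃ i, ∃ x : ℂ, aeval x (f i) = 0 ∧ z = x ^ s) ∧
      IsCurve C ∧ IsCurvePolynomial C w ∧ X = toZ Y

/-- `X` has `∑ c y ^ n` points with values in the extensions of degree `n`, `(c, y)` in `P`. -/
def HasTrace {k : Type} [Field k] (X : Over (Spec (CommRingCat.of k))) (P : Multiset (ℤ × ℂ)) :
    Prop :=
  ∀ (K : Type) [Field K] [Finite K] [Algebra k K], (Nat.card (Points X K) : ℂ) =
    (P.map fun t => (t.1 : ℂ) * t.2 ^ Module.finrank k K).sum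

end Pool.Agent.J4H9.BC
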