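import Mathlib
import Pool.Agent.J4H9.BSZeta
import Pool.Agent.J4H9.BC.Defs

/-!
# The zeta function of a scheme over a finite field with given numbers of points
-/

set_option autoImplicit false

open CategoryTheory CategoryTheory.Limits AlgebraicGeometry Polynomial Pool.Agent.Y116.UV
  Pool.Agent.Q193.Zeta Pool.Agent.J4H9.BS

namespace Pool.Agent.J4H9.BC

section field

variable {k : Type} [Field k] (B : Over (Spec (CommRingCat.of k)))

theorem card_pt_eq {K : Type} [Field K] [Finite K] (hfin : Finite (Pt B.left K))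
    {P : Multiset (ℤ × ℂ)} (hw : HasTrace B P) {n : ℕ} (hn : Nat.card k ^ n = Nat.card K) :
    (Nat.card (Pt B.left K) : ℂ) =
      Nat.card (k →+* K) * (P.map fun t => (t.1 : ℂ) * t.2 ^ n).sum := by
  classical
  by_cases he : IsEmpty (k →+* K)
  · have h1 : IsEmpty (Pt B.left K) := ⟨fun P => he.elim (ptSigma B K P).1⟩
    rw [Nat.card_of_isEmpty, Nat.card_of_isEmpty, Nat.cast_zero, zero_mul]
  rw [not_isEmpty_iff] at he
  have hk : Finite k := Finite.of_injective he.some he.some.injective
  have hk1 : 1 < Nat.card k := Finite.one_lt_card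
  have h2 : Finite (k →+* K) := Finite.of_injective (fun f => (f : k → K)) DFunLike.coe_injective
  have : Fintype (k →+* K) := Fintype.ofFinite _
  have h3 : ∀ φ : k →+* K, Finite {x : Spec (CommRingCat.of K) ⟶ B.left //
      x ≫ B.hom = Spec.map (CommRingCat.ofHom φ)} := by
    intro φ
    have : Finite (Σ φ : k →+* K, {x : Spec (CommRingCat.of K) ⟶ B.left //
      x ≫ B.hom = Spec.map (CommRingCat.ofHom φ)}) := Finite.of_equiv _ (ptSigma B K)
    exact Finite.of_injective (fun x => (⟨φ, x⟩ : Σ φ : k →+* K,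
      {x : Spec (CommRingCat.of K) ⟶ B.left //
        x ≫ B.hom = Spec.map (CommRingCat.ofHom φ)})) fun x y hxy => eq_of_heq (Sigma.mk.inj hxy).2
  have h4 : ∀ φ : k →+* K, (Nat.card {x : Spec (CommRingCat.of K) ⟶ B.left //
      x ≫ B.hom = Spec.map (CommRingCat.ofHom φ)} : ℂ) =
        (P.map fun t => (t.1 : ℂ) * t.2 ^ n).sum := by
    intro φ
    let _ : Algebra k K := φ.toAlgebra
    have h5 := hw K
    have h6 : Module.finrank k K = n := by
      have : Fintype k := Fintype.ofFinite k
      have : Fintype K := Fintype.ofFinite K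
      have h7 : Nat.card K = Nat.card k ^ Module.finrank k K := by
        rw [Nat.card_eq_fintype_card, Nat.card_eq_fintype_card]
        exact Module.card_eq_pow_finrank
      rw [← hn] at h7
      exact (Nat.pow_right_injective hk1 h7).symm
    rw [h6] at h5
    exact h5
  rw [Nat.card_congr (ptSigma B K), Nat.card_sigma]
  push_cast
  rw [Finset.sum_congr rfl fun φ _ => h4 φ, Finset.sum_const, Finset.card_univ, nsmul_eq_mul,
    Nat.card_eq_fintype_card]

/-- The coefficients of the logarithm of the zeta function. -/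
theorem cf_pow [Finite k] {C l : ℕ} (hb : Bounded B.left C l) {P : Multiset (ℤ × ℂ)}
    (hw : HasTrace B P) (n : ℕ) :
    ((cf (nm B.left) (Nat.card k ^ n) : ℝ) : ℂ) =
      (P.map fun t => (t.1 : ℂ) * t.2 ^ n).sum / n := by
  have : Fintype k := Fintype.ofFinite k
  obtain ⟨p, _, a, hp, hka⟩ := FiniteField.card' k
  have hk : Nat.card k = p ^ (a : ℕ) := by rw [Nat.card_eq_fintype_card, hka]
  rcases Nat.eq_zero_or_pos n with rfl | hn
  · rw [pow_zero, Nat.cast_zero, div_zero]
    have : IsEmpty (Fib (nm B.left) 1) := ⟨fun j => by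
      have h1 := one_lt_nm B.left j.1.1
      have h2 := Nat.one_lt_pow (Nat.succ_ne_zero j.1.2) h1
      exact absurd j.2 h2.ne'⟩
    rw [cf, tsum_empty, Complex.ofReal_zero]
  obtain ⟨K, _, _, hK⟩ := exists_field hp (mul_ne_zero a.ne_zero hn.ne')
  have hfin := (hb K).1
  have h1 := card_pt B.left K hp hK
  have hKk : Nat.card k ^ n = Nat.card K := by rw [hk, hK, pow_mul]
  obtain ⟨e, rfl⟩ := Nat.exists_eq_succ_of_ne_zero hn.ne'
  have h2 := card_hom (k := k) (K := K) hp hK hKk
  have h3 := card_pt_eq B hfin hw hKk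
  rw [hKk]
  have h4 : (((a : ℕ) * (e + 1) : ℕ) : ℂ) * ((cf (nm B.left) (Nat.card K) : ℝ) : ℂ) =
      Nat.card (k →+* K) * (P.map fun t => (t.1 : ℂ) * t.2 ^ (e + 1)).sum := by
    rw [← h3, ← Complex.ofReal_natCast, ← Complex.ofReal_natCast, ← Complex.ofReal_mul, h1]
  have h5 : ((e : ℂ) + 1) * (Nat.card (k →+* K) : ℂ) = (a : ℂ) * ((e : ℂ) + 1) := by
    exact_mod_cast h2
  have ha : ((a : ℕ) : ℂ) ≠ 0 := by exact_mod_cast a.ne_zero
  have he : ((e : ℂ) + 1) ≠ 0 := by exact_mod_cast Nat.succ_ne_zero e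
  have h6 : (Nat.card (k →+* K) : ℂ) = (a : ℂ) := by
    refine mul_left_cancel₀ he ?_
    rw [h5]
    ring
  rw [h6] at h4
  push_cast at h4 ⊢
  rw [eq_div_iff he]
  refine mul_left_cancel₀ ha ?_
  linear_combination h4

end field

theorem exists_bound (q : ℝ) (hq : 1 < q) (P : Multiset (ℤ × ℂ)) :
    ∃ c : ℕ, ∀ t ∈ P, ‖t.2‖ ≤ q ^ c := by
  induction P using Multiset.induction_on with
  | empty => exact ⟨0, fun t ht => absurd ht (Multiset.notMem_zero t)⟩
  | cons a P ih =>
    obtain ⟨c, hc⟩ := ih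
    obtain ⟨d, hd⟩ := pow_unbounded_of_one_lt ‖a.2‖ hq
    refine ⟨max c d, fun t ht => ?_⟩
    rcases Multiset.mem_cons.1 ht with rfl | ht
    · exact hd.le.trans (pow_le_pow_right₀ hq.le (le_max_right _ _))
    · exact (hc t ht).trans (pow_le_pow_right₀ hq.le (le_max_left _ _))

/-- **The zeta function.** -/
theorem zeta_trace {k : Type} [Field k] [Finite k] (B : Over (Spec (CommRingCat.of k)))
    (hB : FT False (toZ B)) {P : Multiset (ℤ × ℂ)} (hw : HasTrace B P) :
    ∃ τ : ℝ, ∀ s : ℂ, τ < s.re → traceZeta (Nat.card k) P s = zeta (toZ B).left s := by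
  obtain ⟨C, l, hb⟩ := ft_bounded hB
  have hk1 : 1 < Nat.card k := Finite.one_lt_card
  set q := Nat.card k with hq
  have hq0 : (0 : ℝ) < q := by exact_mod_cast hk1.le
  have hq1 : (1 : ℝ) < q := by exact_mod_cast hk1
  have hqC : (q : ℂ) ≠ 0 := by exact_mod_cast (ne_of_gt (lt_trans Nat.zero_lt_one hk1))
  obtain ⟨c, hc⟩ := exists_bound (q : ℝ) hq1 P
  refine ⟨max ((l : ℝ) + 1) c, fun s hs => ?_⟩
  have hs1 : (l : ℝ) + 1 < s.re := lt_of_le_of_lt (le_max_left _ _) hs
  have hs2 : (c : ℝ) < s.re := lt_of_le_of_lt (le_max_right _ _) hs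
  have hnorm : ∀ t ∈ P, ‖t.2 * (q : ℂ) ^ (-s)‖ < 1 := by
    intro t ht
    rw [norm_mul, Complex.norm_natCast_cpow_of_pos (lt_trans Nat.zero_lt_one hk1),
      Complex.neg_re]
    refine lt_of_le_of_lt (mul_le_mul_of_nonneg_right (hc t ht) (by positivity)) ?_
    rw [← Real.rpow_natCast, ← Real.rpow_add hq0]
    exact Real.rpow_lt_one_of_one_lt_of_neg hq1 (by linarith)
  have hsum : HasSum (LSeries.term (fun m => (cf (nm B.left) m : ℂ)) s)
      (P.map fun t => (t.1 : ℂ) * -Complex.log (1 - t.2 * (q : ℂ) ^ (-s))).sum := by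
    have hinj : Function.Injective fun n => q ^ n := Nat.pow_right_injective hk1
    refine (hinj.hasSum_iff ?_).1 ?_
    · intro m hm
      rw [LSeries.term_def]
      split_ifs
      · rfl
      · rw [cf_other B hm, Complex.ofReal_zero, zero_div]
    · have h1 := hasSum_multiset P
        (fun t n => (t.1 : ℂ) * ((t.2 * (q : ℂ) ^ (-s)) ^ n / n))
        (fun t => (t.1 : ℂ) * -Complex.log (1 - t.2 * (q : ℂ) ^ (-s)))
        (fun t ht => (Complex.hasSum_taylorSeries_neg_log (hnorm t ht)).mul_left _)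
      refine h1.congr_fun ?_ 
      intro n
      have hqn : q ^ n ≠ 0 := pow_ne_zero _ (lt_trans Nat.zero_lt_one hk1).ne'
      simp only [Function.comp_apply]
      rw [LSeries.term_of_ne_zero hqn, cf_pow B hb hw n, div_div, div_eq_mul_inv,
        ← Multiset.sum_map_mul_right]
      refine congrArg _ (Multiset.map_congr rfl fun t _ => ?_)
      rw [mul_pow, ← Complex.cpow_nat_mul, mul_inv, Nat.cast_pow,
        Complex.natCast_cpow_natCast_mul, Complex.cpow_neg]
      ring
  have hlz : lz B.left s =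
      (P.map fun t => (t.1 : ℂ) * -Complex.log (1 - t.2 * (q : ℂ) ^ (-s))).sum := hsum.tsum_eq
  have hz : zeta (toZ B).left s = Complex.exp (lz B.left s) := ft_zeta hB hb hs1
  rw [hz, hlz, Complex.exp_multiset_sum, Multiset.map_map, traceZeta]
  refine congrArg _ (Multiset.map_congr rfl fun t ht => ?_)
  have hne : 1 - t.2 * (q : ℂ) ^ (-s) ≠ 0 := by
    intro h0
    have h1 : t.2 * (q : ℂ) ^ (-s) = 1 := (sub_eq_zero.1 h0).symm
    have h2 := hnorm t ht
    rw [h1, norm_one] at h2
    exact lt_irrefl _ h2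
  simp only [Function.comp_apply]
  have h1 : (t.1 : ℂ) * -Complex.log (1 - t.2 * (q : ℂ) ^ (-s)) =
      ((-t.1 : ℤ) : ℂ) * Complex.log (1 - t.2 * (q : ℂ) ^ (-s)) := by
    push_cast
    ring
  rw [h1, Complex.exp_int_mul, Complex.exp_log hne]

/-- The numbers of points of the product. -/
theorem hasTrace_product (t_PTS : S_PTS) {k : Type} [Field k] {B C X : Over (Spec (CommRingCat.of k))}
    (p₁ : X ⟶ B) (p₂ : X ⟶ C) (hX : Nonempty (IsLimit (BinaryFan.mk p₁ p₂))) {h w : ℤ[X]}
    (hB : IsWeilPolynomial B h) (hC : IsCurvePolynomial C w) :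
    HasTrace X (productTrace (Nat.card k) h w) := by
  intro K _ _ _
  have h1 := t_PTS k B C X p₁ p₂ hX K
  have h2 : (Nat.card (Points X K) : ℂ) = (Nat.card (Points B K) : ℂ) * Nat.card (Points C K) := by
    exact_mod_cast h1
  set n := Module.finrank k K
  have h3 : ∀ P P' : Multiset (ℤ × ℂ),
      ((P.bind fun t => P'.map fun u => (t.1 * u.1, t.2 * u.2)).map
        fun t : ℤ × ℂ => (t.1 : ℂ) * t.2 ^ n).sum =
      (P.map fun t => (t.1 : ℂ) * t.2 ^ n).sum * (P'.map fun t => (t.1 : ℂ) * t.2 ^ n).sum := by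
    intro P P'
    induction P using Multiset.induction_on with
    | empty => simp
    | cons a P ih =>
      rw [Multiset.cons_bind, Multiset.map_add, Multiset.sum_add, ih, Multiset.map_cons,
        Multiset.sum_cons, add_mul, Multiset.map_map]
      congr 1
      refine Eq.trans ?_ Multiset.sum_map_mul_left
      refine congrArg _ (Multiset.map_congr rfl fun u _ => ?_)
      simp only [Function.comp_apply]
      push_cast
      ring
  rw [h2, hB.points K, hC.points K, productTrace, h3, prod_expand, abelianTrace, curveTrace,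
    Multiset.map_map]
  congr 1
  · refine congrArg _ (Multiset.map_congr rfl fun S _ => ?_)
    simp only [Function.comp_apply]
    push_cast
    rfl
  · rw [Multiset.map_cons, Multiset.map_cons, Multiset.sum_cons, Multiset.sum_cons,
      Multiset.map_map]
    have h4 : ∀ R : Multiset ℂ, (R.map ((fun t : ℤ × ℂ => (t.1 : ℂ) * t.2 ^ n) ∘
        fun z => ((-1 : ℤ), z))).sum = -(R.map fun z => z ^ n).sum := by
      intro R
      induction R using Multiset.induction_on with
      | empty => simp
      | cons a R ih =>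
        rw [Multiset.map_cons, Multiset.sum_cons, ih, Multiset.map_cons, Multiset.sum_cons]
        simp only [Function.comp_apply]
        push_cast
        ring
    rw [h4]
    push_cast
    ring

end Pool.Agent.J4H9.BC
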