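import Mathlib
import Pool.Agent.J4H9.BC.Zeta
import Pool.Agent.J4H9.BSComb
import Pool.Agent.J4H9.BF.Crv

/-!
# The order formula for the products of almost all abelian varieties with all curves
-/

set_option autoImplicit false

open CategoryTheory CategoryTheory.Limits AlgebraicGeometry Polynomial Pool.Agent.Y116.UV
  Pool.Agent.Q193.Zeta Pool.Agent.Q282.UZ Pool.Agent.J4H9.BS Pool.Agent.J4H9.NGauss
  Pool.Agent.J4H9.NStm Pool.Agent.J4H9.BF Pool.Agent.J4H9.NAll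
  Pool.Agent.W521.Frob Pool.Agent.W521.Descent Pool.Agent.W521.Count Pool.Agent.J4H9.Alg

universe w

namespace Pool.Agent.J4H9.BC

theorem sign_one {q : ℕ} (hq : 1 < q) {h v : ℤ[X]} (hh : ∀ z : ℂ, aeval z h = 0 → ‖z‖ ^ 2 = (q : ℝ))
    (hv : ∀ z : ℂ, aeval z v = 0 → ‖z‖ ^ 2 = (q : ℝ)) (m : ℤ) :
    ∀ t ∈ productTrace q h v, t.2 = (q : ℂ) ^ m → t.1 = 1 := by
  intro t ht hm
  have hqC : (q : ℂ) ≠ 0 := by exact_mod_cast (ne_of_gt (lt_trans Nat.zero_lt_one hq))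
  rw [productTrace, Multiset.mem_bind] at ht
  obtain ⟨a, ha, ht⟩ := ht
  obtain ⟨u, hu, rfl⟩ := Multiset.mem_map.1 ht
  rw [abelianTrace] at ha
  obtain ⟨S, hS, rfl⟩ := Multiset.mem_map.1 ha
  have hSn : ∀ z ∈ S, ‖z‖ ^ 2 = (q : ℝ) := fun z hz =>
    hh z (mem_aroots.1 (Multiset.mem_of_le (Multiset.mem_powerset.1 hS) hz)).2
  have key : ∀ c : ℤ, (Multiset.card S : ℤ) = 2 * c → (-1 : ℤ) ^ Multiset.card S = 1 := by
    intro c hc
    have h6 : Even (Multiset.card S) := by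
      have h7 : Even (Multiset.card S : ℤ) := ⟨c, by omega⟩
      exact_mod_cast h7
    exact h6.neg_one_pow
  simp only at hm ⊢
  rw [curveTrace] at hu
  rcases Multiset.mem_cons.1 hu with rfl | hu
  · simp only [mul_one] at hm ⊢
    exact key m (even_card hq hSn hm)
  rcases Multiset.mem_cons.1 hu with rfl | hu
  · simp only [mul_one] at hm ⊢
    refine key (m - 1) (even_card hq hSn ?_)
    rw [zpow_sub_one₀ hqC, ← hm, mul_assoc, mul_inv_cancel₀ hqC, mul_one]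
  · obtain ⟨z, hz, rfl⟩ := Multiset.mem_map.1 hu
    have hz2 := hv z (mem_aroots.1 hz).2
    simp only at hm ⊢
    have h1 : (Multiset.card (z ::ₘ S) : ℤ) = 2 * m := by
      refine even_card hq (fun y hy => ?_) ?_
      · rcases Multiset.mem_cons.1 hy with rfl | hy
        · exact hz2
        · exact hSn y hy
      · rw [Multiset.prod_cons, mul_comm]
        exact hm
    rw [Multiset.card_cons] at h1
    push_cast at h1
    have h6 : Odd (Multiset.card S) := by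
      have h7 : Odd (Multiset.card S : ℤ) := ⟨m - 1, by omega⟩
      exact_mod_cast h7
    rw [h6.neg_one_pow]
    norm_num

theorem formula_curve (t_PTS : S_PTS) (t_ORD : S_ORD) {A : ℤ → ℤ → Sch ℤ → ModuleCat.{w} ℚ}
    (hK : KahnTheoremCurves A) {k : Type} [Field k] [Finite k]
    {B C X : Over (Spec (CommRingCat.of k))} (p₁ : X ⟶ B) (p₂ : X ⟶ C)
    (hX : Nonempty (IsLimit (BinaryFan.mk p₁ p₂))) (hB : IsAbelianVariety B) {h v : ℤ[X]}
    (hw : IsWeilPolynomial B h) (hC : IsCurve C) (hv : IsCurvePolynomial C v)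
    (hn : NoExotic (Nat.card k) h) (hn' : NoExoticCurve (Nat.card k) h v)
    (hF : FT False (toZ X)) : Formula A (toZ X) := by
  classical
  have hk1 : 1 < Nat.card k := Finite.one_lt_card
  obtain ⟨τ, hτ⟩ := zeta_trace X hF (hasTrace_product t_PTS p₁ p₂ hX hw hv)
  obtain ⟨g1, g2⟩ := t_ORD (Nat.card k) hk1 (productTrace (Nat.card k) h v)
  refine ⟨traceZeta (Nat.card k) (productTrace (Nat.card k) h v), g1, ⟨τ, hτ⟩, fun m => ?_⟩
  obtain ⟨h1, h2, h3⟩ := hK k B C X p₁ p₂ h v hX hB hw hC hv hn hn' m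
  refine ⟨⟨fun j => ?_, (Set.finite_singleton (0 : ℤ)).subset fun j hj => ?_⟩, ?_⟩
  · by_cases hj : j = 0
    · rw [hj]
      exact h2
    · have := h1 j hj
      infer_instance
  · by_contra h4
    exact hj (h1 j h4)
  · rw [g2 m (sign_one hk1 hw.norm hv.norm m)]
    have h4 : rk (A m) (toZ X) = (tateNumberProduct (Nat.card k) h v m : ℤ) := by
      rw [rk, finsum_eq_single _ (0 : ℤ) fun j hj => ?_, h3]
      · simp
      · have := h1 j hj
        rw [Module.finrank_zero_of_subsingleton, Nat.cast_zero, mul_zero]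
    rw [h4, tateNumberProduct]

theorem noExoticCurve_fam (t_NEC : S_NEC) {I : Type} {q : ℕ} (hq : 1 < q) {f : I → ℤ[X]}
    (hodd : OddRelF q f) (hf : ∀ i, ∀ z : ℂ, aeval z (f i) = 0 → ‖z‖ ^ 2 = (q : ℝ)) {s : ℕ}
    (hs : 0 < s) {h v : ℤ[X]}
    (hroots : ∀ z : ℂ, aeval z h = 0 → ∃ i, ∃ x : ℂ, aeval x (f i) = 0 ∧ z = x ^ s)
    (hv : v.Monic) (hvn : ∀ z : ℂ, aeval z v = 0 → ‖z‖ ^ 2 = (q : ℝ) ^ s) :
    NoExoticCurve (q ^ s) h v := by
  classical
  intro S hS z hz m n hn hrel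
  have hex : ∀ y : ℂ, ∃ x : ℂ, y ∈ S → (∃ i, aeval x (f i) = 0) ∧ y = x ^ s := by
    intro y
    by_cases hy : y ∈ S
    · obtain ⟨i, x, h3, h4⟩ := hroots y (mem_aroots.1 (Multiset.mem_of_le hS hy)).2
      exact ⟨x, fun _ => ⟨⟨i, h3⟩, h4⟩⟩
    · exact ⟨0, fun h => absurd h hy⟩
  choose a ha using hex
  set T := S.map a with hT
  have hTr : ∀ x ∈ T, x ∈ {x : ℂ | ∃ i, aeval x (f i) = 0} := by
    intro x hx
    obtain ⟨y, hy, rfl⟩ := Multiset.mem_map.1 hx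
    exact (ha y hy).1
  have hTs : T.map (fun x => x ^ s) = S := by
    rw [hT, Multiset.map_map]
    conv_rhs => rw [← Multiset.map_id S]
    exact Multiset.map_congr rfl fun y hy => (ha y hy).2.symm
  have hTprod : T.prod ^ s = S.prod := by
    rw [← hTs, Multiset.prod_map_pow]
    simp
  have h1 := t_NEC q s hq hs {x : ℂ | ∃ i, aeval x (f i) = 0} (fun x ⟨i, hi⟩ => hf i x hi) z
    (hvn z hz) (hodd s hs z ⟨v, hv, hz⟩ (hvn z hz)) T hTr m n hn (by rw [hTprod]; exact hrel)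
  rw [hTs] at h1
  exact h1

/-- The conjecture of Bloch and Soulé (`Formula`) for all schemes that are built from the abelian
varieties in `IsMember q b f`, the products with all curves in `IsCurveMember q f`, and from other
schemes for which it is true. Here `A` is the family of the groups `CH_m(X, k) ⊗ ℚ`, with the known
properties `IsChowTheory` (Bloch, Levine), `KahnTheorem` and `KahnTheoremCurves` (Kahn). -/
def BlochSouleCurvesFor {I : Type} (q b : ℕ) (f : I → ℤ[X]) : Prop :=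
  ∀ A : ℤ → ℤ → Sch ℤ → ModuleCat.{w} ℚ, IsChowTheory A → KahnTheorem A → KahnTheoremCurves A →
    ∀ X : Sch ℤ, Built (fun Y => IsMember q b f Y ∨ IsCurveMember q f Y ∨ Formula A Y) X →
      Formula A X

theorem noExotic_one (Q : ℕ) : NoExotic Q 1 := by
  intro S hS m n hn h
  have h1 : S = 0 := by
    rw [aroots_one] at hS
    exact Multiset.le_zero.1 hS
  exact ⟨0, by rw [h1]; simp, fun t ht => absurd ht (Multiset.notMem_zero t)⟩

theorem curves_of_fam (t_PTS : S_PTS) (t_ORD : S_ORD) (t_NEC : S_NEC) {I : Type} [Finite I]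
    {q g b : ℕ} (hq : 1 < q) {f : I → ℤ[X]} (hf : FamOK q g b f) (hodd : OddRelF q f) :
    BlochSouleCurvesFor.{w} q b f := by
  intro A hA hK hK' X hX
  have hnorm : ∀ i, ∀ z : ℂ, aeval z (f i) = 0 → ‖z‖ ^ 2 = (q : ℝ) := by
    obtain ⟨r, h, -, -, -, -, -, -, hn, rfl⟩ := hf
    exact hn
  refine formula_built hA ?_ hX
  rintro Y hY (h | ⟨s, k, _, _, B, C, X', p₁, p₂, h, v, hs, hk, hl, hB, hw, hr, hC, hv, rfl⟩ | h)
  · exact formula_fam (lt_trans Nat.zero_lt_one hq) hf hA hK (Built.of hY (Or.inl h))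
  · refine formula_curve t_PTS t_ORD hK' p₁ p₂ hl hB hw hC hv ?_ ?_ hY
    · rw [hk, ← mul_one h]
      refine noExotic_fam (lt_trans Nat.zero_lt_one hq) hf hs hw.monic monic_one
        (fun z hz => ?_) hr (by rw [natDegree_one]; exact Nat.zero_le _) (noExotic_one _)
      rw [mul_one] at hz
      have h1 := hw.norm z hz
      rw [hk] at h1
      exact h1
    · rw [hk]
      refine noExoticCurve_fam t_NEC hq hodd hnorm hs hr hv.monic fun z hz => ?_
      have h1 := hv.norm z hz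
      rw [hk] at h1
      rw [h1]
      push_cast
      rfl
  · exact h

theorem main_bsc (t_JOR : S_JOR) (t_TRI : S_TRI) (t_N3 : S_N3) (t_CMT : S_CMT) (t_DCN : S_DCN)
    (t_K3 : S_K3) (t_AVG : S_AVG) (t_TOP : S_TOP) (t_PTS : S_PTS) (t_ORD : S_ORD)
    (t_NEC : S_NEC) {μ ε : ℝ}
    (hμ : 0 < μ) (hμ1 : μ ≤ 1 / 2) (hε : 0 < ε) (hε1 : ε < μ / 4) :
    ∃ g₀ : ℕ, ∀ g : ℕ, g₀ ≤ g → ∀ p a : ℕ, p.Prime → 0 < a → ∀ lam : ℕ → ℝ, Slopes lam →
      ∑ i ∈ Finset.range g, lam i ≤ (1 / 2 - μ) * g →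
      ∀ E : Finset ℕ, (∀ j ∈ E, 0 < j ∧ j ≤ g ∧
        ∃ n : ℕ, (a : ℝ) * ∑ i ∈ Finset.range j, lam i = n) →
      ((newtonAbove p a lam g).Finite ∧
        (64 ≤ ((p ^ a : ℕ) : ℝ) ^ (μ / 2) → 0 < (newtonThrough p a lam g E).ncard) ∧
        ((∀ j, 0 < j → j < g → lam (j - 1) < lam j → j ∈ E) → g ∈ E →
          lam 0 + lam 1 + lam 2 < 1 → ∀ f ∈ newtonThrough p a lam g E, Three p a g f)) ∧
      ∀ (S : Set ℤ[X]) (D : ℝ), S ⊆ newtonAbove p a lam g → (∀ f ∈ S, Three p a g f) → 1 ≤ D →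
        ((newtonThrough p a lam g E).ncard : ℝ) ≤ D * S.ncard → ∀ m : ℕ,
        ({f : Fin m → ℤ[X] | (∀ i, f i ∈ S) ∧
            ¬ BlochSouleCurvesFor.{w} (p ^ a) (g / 2) f}.ncard : ℝ) ≤
          (m : ℝ) ^ 2 * D * 2 ^ E.card * 8 ^ g *
            ((p ^ a : ℕ) : ℝ) ^ (-((μ / 4 - ε) * g)) * (S.ncard : ℝ) ^ m := by
  obtain ⟨g₀, h⟩ := main_pred5 (κ := 1 / 2) le_rfl (by norm_num) hμ hμ1 hε
    (by linarith : ε < μ * (1 - 1 / 2) / 2) (fun q b m f => ∃ g', 3 ≤ g' ∧ FamOK5 q g' b f)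
    (fun q g' b m f hq hg3 hf => ⟨g', hg3, hf⟩)
  refine ⟨max g₀ 10, fun g hg p a hp ha lam hs hht E hE => ?_⟩
  have hg0 : g₀ ≤ g := le_trans (le_max_left _ _) hg
  have hg10 : 10 ≤ g := le_trans (le_max_right _ _) hg
  obtain ⟨⟨h1, h2⟩, h3⟩ := h g hg0 p a hp ha lam hs hht E hE
  refine ⟨⟨h1, h2, fun hbr hgE h4 f hf => three_of_through hp ha (by omega) hs hE hbr hgE h4 hf⟩,
    ?_⟩
  intro S D hS hthree hD hDS m
  have hSfin : S.Finite := h1.subset hS
  have hfl : ⌊(1 / 2 : ℝ) * g⌋₊ = g / 2 := by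
    have h4 := Nat.floor_div_eq_div (K := ℝ) g 2
    rw [← h4]
    congr 1
    push_cast
    ring
  refine le_trans ?_ (le_trans (h3 S D hS hD hDS m) (le_of_eq ?_))
  · refine Nat.cast_le.2 (Set.ncard_le_ncard ?_ (Set.Finite.subset
      (Set.Finite.pi' fun _ : Fin m => hSfin) fun f hf => hf.1))
    rintro f ⟨h4, h5⟩
    refine ⟨h4, ?_⟩
    rintro ⟨g', hg3, h6⟩
    apply h5
    have hodd := odd_of_fam t_JOR t_TRI t_N3 t_CMT t_DCN t_K3 t_AVG t_TOP hg3 h6 hp rfl hg10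
      (fun i => (hS (h4 i)).1) (fun i => hthree _ (h4 i))
    rw [hfl] at h6
    have hfam : FamOK (p ^ a) g' (g / 2) f := by
      obtain ⟨r, h, hr, hr2, hgr, hbr, -, hmon, hgood, hnorm, hh⟩ := h6
      exact ⟨r, h, hr, hr2, hgr, hbr, hmon, hgood, hnorm, hh⟩
    exact curves_of_fam t_PTS t_ORD t_NEC (Nat.one_lt_pow ha.ne' hp.one_lt) hfam hodd
  · have e : μ * (1 - 1 / 2) / 2 - ε = μ / 4 - ε := by ring
    rw [e]

end Pool.Agent.J4H9.BC
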